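import Pool.Agent.H20.SM.Targets
import Pool.Agent.H17.HH.PHN

/-!
# MP_347b49_nt, row PHI: Euler's function of a special modulus
-/

set_option autoImplicit false

open NumberField NumberField.InfinitePlace Complex Filter Topology MeasureTheory

namespace Pool.Agent.H1.SMQ

open Pool.Agent.H28.RC Pool.Agent.H25.HK Pool.Agent.H37.CV Pool.Agent.H20.SM Pool.Agent.H33.HH

private theorem phi_weier {ι : Type} (S : Finset ι) (a : ι → ℝ) (h0 : ∀ i ∈ S, 0 ≤ a i)
    (h1 : ∀ i ∈ S, a i ≤ 1) : 1 - ∑ i ∈ S, a i ≤ ∏ i ∈ S, (1 - a i) := by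
  classical
  induction S using Finset.induction_on with
  | empty => simp
  | insert i S hi ih =>
    rw [Finset.sum_insert hi, Finset.prod_insert hi]
    have h2 := ih (fun j hj => h0 j (Finset.mem_insert_of_mem hj))
      (fun j hj => h1 j (Finset.mem_insert_of_mem hj))
    have h3 := h0 i (Finset.mem_insert_self _ _)
    have h4 := h1 i (Finset.mem_insert_self _ _)
    have h5 : 0 ≤ ∏ i ∈ S, (1 - a i) :=
      Finset.prod_nonneg fun j hj => sub_nonneg.2 (h1 j (Finset.mem_insert_of_mem hj))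
    have h6 : ∏ i ∈ S, (1 - a i) ≤ 1 :=
      Finset.prod_le_one (fun j hj => sub_nonneg.2 (h1 j (Finset.mem_insert_of_mem hj)))
        (fun j hj => by linarith [h0 j (Finset.mem_insert_of_mem hj)])
    nlinarith

theorem pf_PHI (hCRT : T_CRT) : T_PHI := by
  classical
  intro F _ _ _ _ A
  set n : ℕ := Module.finrank ℚ F with hn
  have hlim : ∀ᶠ x : ℝ in atTop, 4 * (n : ℝ) * Real.log x ^ A ≤ Real.sqrt x := by
    have h := (isLittleO_log_rpow_rpow_atTop (s := 1 / 2) (A : ℝ) (by norm_num)).bound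
      (c := 1 / (4 * (n : ℝ) + 1)) (by positivity)
    filter_upwards [h, eventually_ge_atTop (1 : ℝ)] with x hx hx1
    have hl : 0 ≤ Real.log x := Real.log_nonneg hx1
    rw [Real.rpow_natCast, Real.norm_of_nonneg (pow_nonneg hl A),
      Real.norm_of_nonneg (Real.rpow_nonneg (by linarith) _), ← Real.sqrt_eq_rpow] at hx
    have h4 : (0 : ℝ) < 4 * (n : ℝ) + 1 := by positivity
    have h5 : (4 * (n : ℝ) + 1) * Real.log x ^ A ≤ Real.sqrt x := by
      calc (4 * (n : ℝ) + 1) * Real.log x ^ A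
          ≤ (4 * (n : ℝ) + 1) * (1 / (4 * (n : ℝ) + 1) * Real.sqrt x) :=
            mul_le_mul_of_nonneg_left hx h4.le
        _ = Real.sqrt x := by field_simp
    have h6 : 0 ≤ Real.log x ^ A := pow_nonneg hl A
    linarith
  obtain ⟨x₀, hx₀⟩ := Filter.eventually_atTop.1 (hlim.and (eventually_ge_atTop (1 : ℝ)))
  refine ⟨x₀, fun x q hx hSp => ?_⟩
  obtain ⟨hx1, hx2⟩ := hx₀ x hx
  have hxp : 0 < Real.sqrt x := Real.sqrt_pos.2 (by linarith)
  have hq0 : q ≠ 0 := hSp.sq.1.ne_zero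
  have hqi : qi F q ≠ ⊥ := by
    unfold qi
    rw [Ne, Ideal.span_singleton_eq_bot]
    exact_mod_cast hq0
  obtain ⟨-, -, hmem, hcard, hnp, -⟩ := hCRT F q hSp.sq
  rw [Pool.Agent.H17.HH.units_eq (qi F q) hqi]
  unfold ph
  have hnm : 0 < nm (qi F q) := Pool.Agent.H17.HH.phn_nm_pos hqi
  have hinv : ∀ P ∈ pf (qi F q), 1 / np P ≤ 1 / Real.sqrt x := by
    intro P hP
    obtain ⟨p, hp, hpP⟩ := (hmem P).1 hP
    rw [hnp p hp P hP hpP]
    exact one_div_le_one_div_of_le hxp (hSp.low p hp)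
  have hcd : ((pf (qi F q)).card : ℝ) ≤ n * q.primeFactors.card := by
    have h1 : pf (qi F q) ⊆ q.primeFactors.biUnion fun p =>
        (pf (qi F q)).filter fun P => (p : 𝓞 F) ∈ P.1 := by
      intro P hP
      obtain ⟨p, hp, hpP⟩ := (hmem P).1 hP
      exact Finset.mem_biUnion.2 ⟨p, hp, Finset.mem_filter.2 ⟨hP, hpP⟩⟩
    have h2 := (Finset.card_le_card h1).trans Finset.card_biUnion_le
    have h3 : ∑ p ∈ q.primeFactors, ((pf (qi F q)).filter fun P => (p : 𝓞 F) ∈ P.1).card =
        ∑ _p ∈ q.primeFactors, n := by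
      refine Finset.sum_congr rfl fun p hp => ?_
      rw [hn, ← hcard p hp]
    rw [h3, Finset.sum_const, smul_eq_mul, mul_comm] at h2
    exact_mod_cast h2
  have hsum : ∑ P ∈ pf (qi F q), 1 / np P ≤ 1 / 2 := by
    calc ∑ P ∈ pf (qi F q), 1 / np P ≤ ∑ _P ∈ pf (qi F q), 1 / Real.sqrt x :=
          Finset.sum_le_sum hinv
      _ = (pf (qi F q)).card * (1 / Real.sqrt x) := by rw [Finset.sum_const, nsmul_eq_mul]
      _ ≤ (n * q.primeFactors.card) * (1 / Real.sqrt x) :=
          mul_le_mul_of_nonneg_right hcd (by positivity)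
      _ ≤ (n * (2 * Real.log x ^ A)) * (1 / Real.sqrt x) := by
          refine mul_le_mul_of_nonneg_right ?_ (by positivity)
          exact mul_le_mul_of_nonneg_left hSp.hi (Nat.cast_nonneg n)
      _ ≤ (Real.sqrt x / 2) * (1 / Real.sqrt x) := by
          refine mul_le_mul_of_nonneg_right ?_ (by positivity)
          linarith
      _ = 1 / 2 := by field_simp
  have hw := phi_weier (pf (qi F q)) (fun P => 1 / np P)
    (fun P _ => by
      have := Pool.Agent.H17.HH.phn_np_two P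
      positivity)
    (fun P _ => by
      have := Pool.Agent.H17.HH.phn_np_two P
      rw [div_le_one (by linarith)]
      linarith)
  have h7 : (1 : ℝ) / 2 ≤ ∏ P ∈ pf (qi F q), (1 - 1 / np P) := by linarith
  nlinarith

end Pool.Agent.H1.SMQ
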