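import Pool.Agent.H20.SM.TZ
import Pool.Agent.H14.SM.SQc

/-!
# MP_347b49_nt, row SNz: the sums over the ideals, with logarithms
-/

set_option autoImplicit false

open NumberField NumberField.InfinitePlace Complex Filter Topology MeasureTheory

namespace Pool.Agent.H1.SMQ

open Pool.Agent.H28.RC Pool.Agent.H25.HK Pool.Agent.H37.CV Pool.Agent.H20.SM Pool.Agent.H59.CV
  Pool.Agent.H65.CRG

section
variable {K : Type} [Field K] [NumberField K]

/-- the weighted sums over the ideals which are not prime to `m` -/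
private theorem snz_bound {C : ℝ} (h : NB K C) {m : Ideal (𝓞 K)} (hm : m ≠ ⊥) (A : ℕ)
    (hA : 1 ≤ A) {Z : ℝ} (hZ0 : 0 < Z)
    (X : Finset (Ideal (𝓞 K))) (hX : ∀ I ∈ X, I ≠ ⊥ ∧ I ⊔ m ≠ ⊤) :
    ∑ I ∈ X, (nm I)⁻¹ * min 1 ((Z / nm I ^ 2) ^ A) ≤
      32 / 3 * C * (1 + max (Real.log Z) 0) * min 1 (Z ^ A) * rc m := by
  classical
  have hC := h.nonneg
  have hmax : 0 ≤ max (Real.log Z) 0 := le_max_right _ _
  have hrc : 0 ≤ rc m := Finset.sum_nonneg fun P _ => inv_nonneg.2 (Nat.cast_nonneg _)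
  rcases X.eq_empty_or_nonempty with rfl | ⟨I₀, hI₀⟩
  · rw [Finset.sum_empty]
    have : 0 ≤ min 1 (Z ^ A) := le_min zero_le_one (by positivity)
    positivity
  obtain ⟨P₀, _⟩ := exists_prime_over (hX I₀ hI₀).1 (hX I₀ hI₀).2
  have hch : ∀ I : Ideal (𝓞 K), ∃ P : PrI K, I ∈ X → I ≤ P.1 ∧ m ≤ P.1 := by
    intro I
    by_cases hI : I ∈ X
    · obtain ⟨P, hP⟩ := exists_prime_over (hX I hI).1 (hX I hI).2
      exact ⟨P, fun _ => hP⟩
    · exact ⟨P₀, fun h => absurd h hI⟩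
  choose p hp using hch
  rw [← Finset.sum_fiberwise_of_maps_to (t := pf m) (g := p)
    (fun I hI => Pool.Agent.H14.SM.sqc_mem_pf hm (hp I hI).2)]
  have hone : ∀ P ∈ pf m, ∑ I ∈ X.filter (fun I => p I = P),
      (nm I)⁻¹ * min 1 ((Z / nm I ^ 2) ^ A) ≤
        32 / 3 * C * (1 + max (Real.log Z) 0) * min 1 (Z ^ A) * (np P)⁻¹ := by
    intro P _
    have hch2 : ∀ I : Ideal (𝓞 K), ∃ J, I ∈ X.filter (fun I => p I = P) → I = P.1 * J := by
      intro I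
      by_cases hI : I ∈ X.filter (fun I => p I = P)
      · rw [Finset.mem_filter] at hI
        have h1 : I ≤ P.1 := hI.2 ▸ (hp I hI.1).1
        obtain ⟨J, hJ⟩ := Ideal.dvd_iff_le.2 h1
        exact ⟨J, fun _ => hJ⟩
      · exact ⟨⊤, fun h => absurd h hI⟩
    choose j hj using hch2
    have hinj : Set.InjOn j (X.filter (fun I => p I = P)) := by
      intro I hI I' hI' h1
      rw [hj I (Finset.mem_coe.1 hI), hj I' (Finset.mem_coe.1 hI'), h1]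
    have h5 : 1 ≤ np P := one_le_nm P.2.2
    have h4 : 0 < np P := by linarith
    calc ∑ I ∈ X.filter (fun I => p I = P), (nm I)⁻¹ * min 1 ((Z / nm I ^ 2) ^ A)
        ≤ ∑ I ∈ X.filter (fun I => p I = P),
            (np P)⁻¹ * ((nm (j I))⁻¹ * min 1 ((Z / nm (j I) ^ 2) ^ A)) := by
          refine Finset.sum_le_sum fun I hI => ?_
          have h1 := hj I hI
          have hI0 : I ≠ ⊥ := (hX I (Finset.mem_filter.1 hI).1).1
          have hj0 : j I ≠ ⊥ := by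
            intro h2
            rw [h2, Ideal.mul_bot] at h1
            exact hI0 h1
          have h2 : nm I = np P * nm (j I) := by
            conv_lhs => rw [h1]
            exact nm_mul _ _
          have h3 : 1 ≤ nm (j I) := one_le_nm hj0
          rw [h2]
          have h6 : Z / (np P * nm (j I)) ^ 2 ≤ Z / nm (j I) ^ 2 := by
            refine div_le_div_of_nonneg_left hZ0.le (by positivity) ?_
            rw [mul_pow]
            have : 1 ≤ np P ^ 2 := one_le_pow₀ h5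
            nlinarith [sq_nonneg (nm (j I))]
          have h7 : (Z / (np P * nm (j I)) ^ 2) ^ A ≤ (Z / nm (j I) ^ 2) ^ A :=
            pow_le_pow_left₀ (by positivity) h6 A
          calc (np P * nm (j I))⁻¹ * min 1 ((Z / (np P * nm (j I)) ^ 2) ^ A)
              ≤ (np P * nm (j I))⁻¹ * min 1 ((Z / nm (j I) ^ 2) ^ A) :=
                mul_le_mul_of_nonneg_left (min_le_min le_rfl h7) (by positivity)
            _ = (np P)⁻¹ * ((nm (j I))⁻¹ * min 1 ((Z / nm (j I) ^ 2) ^ A)) := by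
                rw [mul_inv]
                ring
      _ = (np P)⁻¹ * ∑ J ∈ (X.filter (fun I => p I = P)).image j,
            ((nm J)⁻¹ * min 1 ((Z / nm J ^ 2) ^ A)) := by
          rw [← Finset.mul_sum, Finset.sum_image hinj]
      _ ≤ (np P)⁻¹ * (32 / 3 * C * (1 + max (Real.log Z) 0) * min 1 (Z ^ A)) := by
          refine mul_le_mul_of_nonneg_left (bound h A hA hZ0 _ ?_) (by positivity)
          intro J hJ
          obtain ⟨I, hI, rfl⟩ := Finset.mem_image.1 hJ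
          intro h2
          have h1 := hj I hI
          rw [h2, Ideal.mul_bot] at h1
          exact (hX I (Finset.mem_filter.1 hI).1).1 h1
      _ = _ := by ring
  refine (Finset.sum_le_sum hone).trans (le_of_eq ?_)
  rw [← Finset.mul_sum]
  rfl

/-- the power of the norm is absorbed -/
private theorem snz_core {N Y e C₀ : ℝ} (A : ℕ) (hN : 1 ≤ N) (hY : 0 < Y) (he0 : 0 ≤ e)
    (he : e ≤ 1 / 8) (hC : e * Real.log (2 + Y) ≤ C₀) :
    N ^ e * min 1 ((N ^ 2 / Y) ^ (-((A : ℝ) + 1 / 16))) ≤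
      Real.exp C₀ * min 1 ((Y / N ^ 2) ^ A) := by
  have hN0 : 0 < N := by linarith
  have hv : 0 < N ^ 2 / Y := by positivity
  have h1 : N ^ e = Y ^ (e / 2) * (N ^ 2 / Y) ^ (e / 2) := by
    rw [← Real.mul_rpow hY.le hv.le]
    have : Y * (N ^ 2 / Y) = N ^ 2 := by field_simp
    rw [this, ← Real.rpow_natCast, ← Real.rpow_mul hN0.le]
    congr 1
    push_cast
    ring
  have h2 : Y ^ (e / 2) ≤ Real.exp C₀ := by
    rw [Real.rpow_def_of_pos hY]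
    refine Real.exp_le_exp.2 ?_
    have e1 : Real.log Y ≤ Real.log (2 + Y) := Real.log_le_log hY (by linarith)
    have e2 : 0 ≤ Real.log (2 + Y) := Real.log_nonneg (by linarith)
    nlinarith
  have h3 : Y / N ^ 2 = (N ^ 2 / Y)⁻¹ := by rw [inv_div]
  have h4 : (N ^ 2 / Y) ^ (e / 2) * min 1 ((N ^ 2 / Y) ^ (-((A : ℝ) + 1 / 16))) ≤
      min 1 ((Y / N ^ 2) ^ A) := by
    rw [h3]
    generalize N ^ 2 / Y = v at hv
    rcases le_or_gt v 1 with h5 | h5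
    · have e1 : v ^ (e / 2) ≤ 1 := Real.rpow_le_one hv.le h5 (by linarith)
      have e2 : 1 ≤ v⁻¹ ^ A := one_le_pow₀ ((one_le_inv₀ hv).2 h5)
      rw [min_eq_left e2]
      have e3 : min 1 (v ^ (-((A : ℝ) + 1 / 16))) ≤ 1 := min_le_left _ _
      have e4 : 0 ≤ v ^ (e / 2) := Real.rpow_nonneg hv.le _
      calc v ^ (e / 2) * min 1 (v ^ (-((A : ℝ) + 1 / 16))) ≤ v ^ (e / 2) * 1 :=
            mul_le_mul_of_nonneg_left e3 e4
        _ ≤ 1 := by linarith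
    · have e1 : v⁻¹ ^ A ≤ 1 := pow_le_one₀ (inv_nonneg.2 hv.le) (inv_le_one_of_one_le₀ h5.le)
      rw [min_eq_right e1]
      calc v ^ (e / 2) * min 1 (v ^ (-((A : ℝ) + 1 / 16)))
          ≤ v ^ (e / 2) * v ^ (-((A : ℝ) + 1 / 16)) :=
            mul_le_mul_of_nonneg_left (min_le_right _ _) (Real.rpow_nonneg hv.le _)
        _ = v ^ (e / 2 + -((A : ℝ) + 1 / 16)) := (Real.rpow_add hv _ _).symm
        _ ≤ v ^ (-(A : ℝ)) := Real.rpow_le_rpow_of_exponent_le h5.le (by linarith)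
        _ = v⁻¹ ^ A := by
            rw [Real.rpow_neg hv.le, Real.rpow_natCast, inv_pow]
  have h5 : 0 ≤ (N ^ 2 / Y) ^ (e / 2) * min 1 ((N ^ 2 / Y) ^ (-((A : ℝ) + 1 / 16))) :=
    mul_nonneg (Real.rpow_nonneg hv.le _)
      (le_min zero_le_one (Real.rpow_nonneg hv.le _))
  rw [h1, mul_assoc]
  exact mul_le_mul h2 h4 h5 (Real.exp_pos _).le

/-- finite sums over a subtype -/
private theorem snz_sub {q : Ideal (𝓞 K) → Prop} (f : Ideal (𝓞 K) → ℂ) (B : ℝ)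
    (h : ∀ X : Finset (Ideal (𝓞 K)), (∀ I ∈ X, q I) → ∑ I ∈ X, ‖f I‖ ≤ B) :
    Summable (fun t : {t : Ideal (𝓞 K) // q t} => ‖f t.1‖) ∧
      ‖∑' t : {t : Ideal (𝓞 K) // q t}, f t.1‖ ≤ B := by
  classical
  refine norm_tsum_le' (fun t : {t : Ideal (𝓞 K) // q t} => f t.1) B fun u => ?_
  have h2 := h (u.image fun t => t.1) (by
    intro I hI
    obtain ⟨t, _, rfl⟩ := Finset.mem_image.1 hI
    exact t.2)
  rw [Finset.sum_image (fun a _ b _ hab => Subtype.ext hab)] at h2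
  exact h2

/-- the difference of the sums -/
private theorem snz_diff (m : Ideal (𝓞 K)) (f : Ideal (𝓞 K) → ℂ)
    (hs : Summable (fun t : {t : Ideal (𝓞 K) // t ≠ ⊥ ∧ t ⊔ ⊤ = ⊤} => ‖f t.1‖)) :
    (∑' t : {t : Ideal (𝓞 K) // t ≠ ⊥ ∧ t ⊔ ⊤ = ⊤}, f t.1) -
      (∑' t : {t : Ideal (𝓞 K) // t ≠ ⊥ ∧ t ⊔ m = ⊤}, f t.1) =
      ∑' t : {t : Ideal (𝓞 K) // t ≠ ⊥ ∧ t ⊔ m ≠ ⊤}, f t.1 := by
  classical
  have hg : Summable (Set.indicator {t : Ideal (𝓞 K) | t ≠ ⊥ ∧ t ⊔ ⊤ = ⊤} f) :=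
    summable_subtype_iff_indicator.1 (Summable.of_norm hs)
  have e1 : ∀ q : Ideal (𝓞 K) → Prop, (∑' t : {t : Ideal (𝓞 K) // q t}, f t.1) =
      ∑' t, Set.indicator {t : Ideal (𝓞 K) | q t} f t := fun q =>
    tsum_subtype {t : Ideal (𝓞 K) | q t} f
  have hsub : ∀ q : Ideal (𝓞 K) → Prop, (∀ t, q t → t ≠ ⊥) →
      Summable (Set.indicator {t : Ideal (𝓞 K) | q t} f) := by
    intro q hq
    have h2 := hg.indicator {t : Ideal (𝓞 K) | q t}
    refine h2.congr fun t => ?_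
    by_cases ht : q t
    · rw [Set.indicator_of_mem (show t ∈ {t : Ideal (𝓞 K) | q t} from ht),
        Set.indicator_of_mem (show t ∈ {t : Ideal (𝓞 K) | q t} from ht),
        Set.indicator_of_mem (show t ∈ {t : Ideal (𝓞 K) | t ≠ ⊥ ∧ t ⊔ ⊤ = ⊤} from
          ⟨hq t ht, sup_top_eq t⟩)]
    · rw [Set.indicator_of_notMem (show t ∉ {t : Ideal (𝓞 K) | q t} from ht),
        Set.indicator_of_notMem (show t ∉ {t : Ideal (𝓞 K) | q t} from ht)]
  rw [e1 (fun t => t ≠ ⊥ ∧ t ⊔ ⊤ = ⊤), e1 (fun t => t ≠ ⊥ ∧ t ⊔ m = ⊤),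
    e1 (fun t => t ≠ ⊥ ∧ t ⊔ m ≠ ⊤), ← Summable.tsum_sub hg (hsub _ fun t ht => ht.1)]
  refine tsum_congr fun t => ?_
  by_cases h0 : t ≠ ⊥
  · by_cases h1 : t ⊔ m = ⊤
    · rw [Set.indicator_of_mem (show t ∈ {t : Ideal (𝓞 K) | t ≠ ⊥ ∧ t ⊔ ⊤ = ⊤} from
          ⟨h0, sup_top_eq t⟩),
        Set.indicator_of_mem (show t ∈ {t : Ideal (𝓞 K) | t ≠ ⊥ ∧ t ⊔ m = ⊤} from ⟨h0, h1⟩),
        Set.indicator_of_notMem (show t ∉ {t : Ideal (𝓞 K) | t ≠ ⊥ ∧ t ⊔ m ≠ ⊤} from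
          fun h => h.2 h1), sub_self]
    · rw [Set.indicator_of_mem (show t ∈ {t : Ideal (𝓞 K) | t ≠ ⊥ ∧ t ⊔ ⊤ = ⊤} from
          ⟨h0, sup_top_eq t⟩),
        Set.indicator_of_notMem (show t ∉ {t : Ideal (𝓞 K) | t ≠ ⊥ ∧ t ⊔ m = ⊤} from
          fun h => h1 h.2),
        Set.indicator_of_mem (show t ∈ {t : Ideal (𝓞 K) | t ≠ ⊥ ∧ t ⊔ m ≠ ⊤} from ⟨h0, h1⟩),
        sub_zero]
  · rw [Set.indicator_of_notMem (show t ∉ {t : Ideal (𝓞 K) | t ≠ ⊥ ∧ t ⊔ ⊤ = ⊤} from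
        fun h => h0 h.1),
      Set.indicator_of_notMem (show t ∉ {t : Ideal (𝓞 K) | t ≠ ⊥ ∧ t ⊔ m = ⊤} from
        fun h => h0 h.1),
      Set.indicator_of_notMem (show t ∉ {t : Ideal (𝓞 K) | t ≠ ⊥ ∧ t ⊔ m ≠ ⊤} from
        fun h => h0 h.1), sub_self]

end

theorem pf_SNz (hVB : T_VBz) : T_SNz := by
  classical
  intro K _ _ C₀ a hC₀ ha
  obtain ⟨C₁, hC₁⟩ := (Pool.Agent.H86.CV.pf_DV K).2
  have hNB : NB K C₁ := hC₁
  have hC10 := hNB.nonneg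
  set A : ℕ := ⌈a⌉₊ + 1 with hA
  have hAa : a ≤ (A : ℝ) := by
    rw [hA]
    push_cast
    have := Nat.le_ceil a
    linarith
  have hA1 : 1 ≤ A := by omega
  obtain ⟨Cv, B, hCv, hB, hV⟩ := hVB (nrComplexPlaces K) ((A : ℝ) + 1 / 16) (by positivity)
  refine ⟨Cv * Real.exp C₀ * (32 / 3 * (C₁ + 1)), B, by positivity, hB, ?_⟩
  intro m s₁ s₂ Y hs1 hs2 hY hlog
  rw [abs_le] at hs1 hs2
  obtain ⟨D, hD⟩ : ∃ D : ℝ, D = (1 + |s₁.im| + |s₂.im|) ^ B := ⟨_, rfl⟩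
  have hD0 : 0 ≤ D := by rw [hD]; positivity
  rw [← hD]
  have hmax : 0 ≤ max (Real.log Y) 0 := le_max_right _ _
  have hmin : min 1 (Y ^ A) ≤ min 1 (Y ^ a) := by
    rcases le_or_gt 1 Y with h | h
    · have e1 : 1 ≤ Y ^ a := Real.one_le_rpow h (by linarith)
      rw [min_eq_left e1]
      exact min_le_left _ _
    · refine min_le_min le_rfl ?_
      rw [← Real.rpow_natCast]
      exact Real.rpow_le_rpow_of_exponent_ge hY h.le hAa
  have hmin0 : 0 ≤ min 1 (Y ^ A) := le_min zero_le_one (by positivity)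
  have hmin1 : 0 ≤ min 1 (Y ^ a) := hmin0.trans hmin
  -- the terms
  set f : Ideal (𝓞 K) → ℂ := fun t => ((nm t : ℝ) : ℂ) ^ (-(s₁ + s₂)) *
    Vn (nrComplexPlaces K) s₁ s₂ (nm t ^ 2 / Y) with hf
  have hterm : ∀ t : Ideal (𝓞 K), t ≠ ⊥ → ‖f t‖ ≤
      (Cv * D * Real.exp C₀) * ((nm t)⁻¹ * min 1 ((Y / nm t ^ 2) ^ A)) := by
    intro t ht
    have hn1 : 1 ≤ nm t := one_le_nm ht
    have hn0 : 0 < nm t := by linarith
    have hx : 0 < nm t ^ 2 / Y := by positivity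
    have h2 := hV s₁ s₂ (by linarith [hs1.1]) (by linarith [hs1.2]) (by linarith [hs2.1])
      (by linarith [hs2.2]) _ hx
    rw [← hD] at h2
    have h3 : ‖((nm t : ℝ) : ℂ) ^ (-(s₁ + s₂))‖ ≤ (nm t)⁻¹ * nm t ^ |(s₁ + s₂).re - 1| := by
      rw [Complex.norm_cpow_eq_rpow_re_of_pos hn0, ← Real.rpow_neg_one, ← Real.rpow_add hn0]
      refine Real.rpow_le_rpow_of_exponent_le hn1 ?_
      have e1 := neg_abs_le ((s₁ + s₂).re - 1)
      simp only [neg_re]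
      linarith
    have he : |(s₁ + s₂).re - 1| ≤ 1 / 8 := by
      rw [abs_le, add_re]
      constructor <;> linarith [hs1.1, hs1.2, hs2.1, hs2.2]
    have h4 := snz_core A hn1 hY (abs_nonneg _) he hlog
    have h5 : 0 ≤ min 1 ((nm t ^ 2 / Y) ^ (-((A : ℝ) + 1 / 16))) :=
      le_min zero_le_one (Real.rpow_nonneg hx.le _)
    rw [hf]
    simp only
    rw [norm_mul]
    calc ‖((nm t : ℝ) : ℂ) ^ (-(s₁ + s₂))‖ * ‖Vn (nrComplexPlaces K) s₁ s₂ (nm t ^ 2 / Y)‖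
        ≤ ((nm t)⁻¹ * nm t ^ |(s₁ + s₂).re - 1|) *
          (Cv * D * min 1 ((nm t ^ 2 / Y) ^ (-((A : ℝ) + 1 / 16)))) :=
          mul_le_mul h3 h2 (norm_nonneg _) (by positivity)
      _ = (Cv * D * (nm t)⁻¹) * (nm t ^ |(s₁ + s₂).re - 1| *
          min 1 ((nm t ^ 2 / Y) ^ (-((A : ℝ) + 1 / 16)))) := by ring
      _ ≤ (Cv * D * (nm t)⁻¹) * (Real.exp C₀ * min 1 ((Y / nm t ^ 2) ^ A)) :=
          mul_le_mul_of_nonneg_left h4 (by positivity)
      _ = _ := by ring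
  have hpre : 0 ≤ Cv * D * Real.exp C₀ := by positivity
  have hbd : ∀ X : Finset (Ideal (𝓞 K)), (∀ I ∈ X, I ≠ ⊥) → ∑ I ∈ X, ‖f I‖ ≤
      Cv * Real.exp C₀ * (32 / 3 * (C₁ + 1)) * D *
        ((1 + max (Real.log Y) 0) * min 1 (Y ^ a)) := by
    intro X hX
    calc ∑ I ∈ X, ‖f I‖ ≤ ∑ I ∈ X, (Cv * D * Real.exp C₀) *
          ((nm I)⁻¹ * min 1 ((Y / nm I ^ 2) ^ A)) :=
          Finset.sum_le_sum fun I hI => hterm I (hX I hI)
      _ = (Cv * D * Real.exp C₀) * ∑ I ∈ X, (nm I)⁻¹ * min 1 ((Y / nm I ^ 2) ^ A) := by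
          rw [Finset.mul_sum]
      _ ≤ (Cv * D * Real.exp C₀) *
          (32 / 3 * C₁ * (1 + max (Real.log Y) 0) * min 1 (Y ^ A)) :=
          mul_le_mul_of_nonneg_left (bound hNB A hA1 hY X hX) hpre
      _ ≤ (Cv * D * Real.exp C₀) *
          (32 / 3 * (C₁ + 1) * (1 + max (Real.log Y) 0) * min 1 (Y ^ a)) := by
          refine mul_le_mul_of_nonneg_left ?_ hpre
          refine mul_le_mul ?_ hmin hmin0 (by positivity)
          refine mul_le_mul_of_nonneg_right ?_ (by positivity)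
          linarith
      _ = _ := by ring
  refine ⟨?_, ?_⟩
  · exact (snz_sub (q := fun t : Ideal (𝓞 K) => t ≠ ⊥ ∧ t ⊔ m = ⊤) f _
      fun X hX => hbd X fun I hI => (hX I hI).1).2
  · intro hm
    have hrc : 0 ≤ rc m := Finset.sum_nonneg fun P _ => inv_nonneg.2 (Nat.cast_nonneg _)
    have h1 := (snz_sub (q := fun t : Ideal (𝓞 K) => t ≠ ⊥ ∧ t ⊔ ⊤ = ⊤) f _
      fun X hX => hbd X fun I hI => (hX I hI).1).1
    have h2 := snz_diff m f h1
    have h3 : Sn (K := K) ⊤ s₁ s₂ Y - Sn m s₁ s₂ Y =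
        ∑' t : {t : Ideal (𝓞 K) // t ≠ ⊥ ∧ t ⊔ m ≠ ⊤}, f t.1 := h2
    rw [norm_sub_rev, h3]
    refine (snz_sub (q := fun t : Ideal (𝓞 K) => t ≠ ⊥ ∧ t ⊔ m ≠ ⊤) f _ fun X hX => ?_).2
    calc ∑ I ∈ X, ‖f I‖ ≤ ∑ I ∈ X, (Cv * D * Real.exp C₀) *
          ((nm I)⁻¹ * min 1 ((Y / nm I ^ 2) ^ A)) :=
          Finset.sum_le_sum fun I hI => hterm I (hX I hI).1
      _ = (Cv * D * Real.exp C₀) * ∑ I ∈ X, (nm I)⁻¹ * min 1 ((Y / nm I ^ 2) ^ A) := by
          rw [Finset.mul_sum]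
      _ ≤ (Cv * D * Real.exp C₀) *
          (32 / 3 * C₁ * (1 + max (Real.log Y) 0) * min 1 (Y ^ A) * rc m) :=
          mul_le_mul_of_nonneg_left (snz_bound hNB hm A hA1 hY X hX) hpre
      _ ≤ (Cv * D * Real.exp C₀) *
          (32 / 3 * (C₁ + 1) * (1 + max (Real.log Y) 0) * min 1 (Y ^ a) * rc m) := by
          refine mul_le_mul_of_nonneg_left ?_ hpre
          refine mul_le_mul_of_nonneg_right ?_ hrc
          refine mul_le_mul ?_ hmin hmin0 (by positivity)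
          refine mul_le_mul_of_nonneg_right ?_ (by positivity)
          linarith
      _ = _ := by ring

end Pool.Agent.H1.SMQ
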